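import Pool.Agent.OSX39.Final

namespace Pool.Agent.Results.MP_7f54ba_co.LinearBound

/-- For every loopless digraph `F` with `n ≥ 1` vertices and `m` arcs, every finite loopless
digraph `D` with dichromatic number greater than `5400 (n + m)` (no colouring `col` with
`5400 (n + m)` colours leaves all colour classes without directed closed walks) contains a
subdivision of `F`. For the complete digraph with arcs in both directions `n + m = n ^ 2`. -/
theorem result : ∀ n : ℕ, 0 < n → ∀ F : Digraph (Fin n),
    (∀ i, ¬ F.Adj i i) → ∀ (V : Type) [Fintype V] (D : Digraph V), (∀ v, ¬ D.Adj v v) →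
      (¬ ∃ col : V → Fin (5400 * (n + Nat.card {e : Fin n × Fin n // F.Adj e.1 e.2})),
        ∀ v, ¬ Relation.TransGen (fun x y => D.Adj x y ∧ col x = col y) v v) →
      Pool.Agent.Mader.ContainsSubdivision F D :=
  Pool.Agent.OSX39.linear_main

end Pool.Agent.Results.MP_7f54ba_co.LinearBound
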