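import Pool.Agent.MK3.Main

namespace Pool.Agent.Results.MP_7f54ba_co.MaderKThree

/-- Every finite loopless digraph with dichromatic number at least 5 contains a subdivision of the
complete digraph on three vertices with arcs in both directions. -/
theorem result : ∀ (V : Type) [Fintype V] (D : Digraph V),
    (∀ v, ¬ D.Adj v v) →
    (¬ ∃ col : V → Fin 4,
        ∀ v, ¬ Relation.TransGen (fun a b => D.Adj a b ∧ col a = col b) v v) →
    ∃ f : Fin 3 → V, Function.Injective f ∧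
      ∃ (L : Fin 3 → Fin 3 → ℕ) (p : Fin 3 → Fin 3 → ℕ → V),
        (∀ i j, i ≠ j →
            p i j 0 = f i ∧ p i j (L i j + 1) = f j ∧
            (∀ t, t ≤ L i j → D.Adj (p i j t) (p i j (t + 1))) ∧
            (∀ s t, 1 ≤ s → s ≤ L i j → 1 ≤ t → t ≤ L i j → p i j s = p i j t → s = t) ∧
            (∀ t k, 1 ≤ t → t ≤ L i j → p i j t ≠ f k)) ∧
        ∀ i j k l, i ≠ j → k ≠ l → (i ≠ k ∨ j ≠ l) →
          ∀ s t, 1 ≤ s → s ≤ L i j → 1 ≤ t → t ≤ L k l → p i j s ≠ p k l t :=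
  fun V _ D hD hcol => Pool.Agent.ParBFS.final Pool.Agent.MK3.mb_K3 V D hD hcol

end Pool.Agent.Results.MP_7f54ba_co.MaderKThree
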